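import Mathlib

set_option autoImplicit false
open Finset

namespace Pool.Agent.LibCSL

/-! Finite block: the group `Γ = (ZMod p)^D`, its characters, and jumps along the moment curve. -/

section block
variable {p : ℕ} [hp : Fact p.Prime] {D : ℕ}

/-- The standard character of `ZMod p`. -/
noncomputable def psi (p : ℕ) [Fact p.Prime] : AddChar (ZMod p) ℂ := ZMod.stdAddChar

theorem psi_norm (a : ZMod p) : ‖psi p a‖ = 1 := AddChar.norm_apply _ _

theorem psi_sum (w : Fin D → ZMod p) :
    ∑ g : Fin D → ZMod p, psi p (w ⬝ᵥ g) = if w = 0 then (p : ℂ) ^ D else 0 := by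
  classical
  set χ : AddChar (Fin D → ZMod p) ℂ :=
    { toFun := fun g => psi p (w ⬝ᵥ g)
      map_zero_eq_one' := by simp
      map_add_eq_mul' := fun a b => by rw [dotProduct_add, AddChar.map_add_eq_mul] } with hχ
  have h1 : ∑ g : Fin D → ZMod p, psi p (w ⬝ᵥ g) = ∑ g, χ g := rfl
  rw [h1, AddChar.sum_eq_ite]
  have h2 : χ = 0 ↔ w = 0 := by
    constructor
    · intro h
      funext d
      by_contra hd
      change w d ≠ 0 at hd
      have h3 : χ (Pi.single d (w d)⁻¹) = 1 := by rw [h]; rfl
      have h4 : χ (Pi.single d (w d)⁻¹) = psi p 1 := by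
        change psi p (w ⬝ᵥ Pi.single d (w d)⁻¹) = _
        rw [dotProduct_single, mul_inv_cancel₀ hd]
      rw [h4] at h3
      have h5 : (1 : ZMod p) = 0 := by
        apply ZMod.injective_stdAddChar
        change psi p 1 = psi p 0
        rw [h3, AddChar.map_zero_eq_one]
      exact one_ne_zero h5
    · intro h
      ext g
      change psi p (w ⬝ᵥ g) = 1
      rw [h, zero_dotProduct, AddChar.map_zero_eq_one]
  by_cases hw : w = 0
  · rw [if_pos (h2.2 hw), if_pos hw]
    simp [Fintype.card_pi, ZMod.card]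
  · rw [if_neg (fun h => hw (h2.1 h)), if_neg hw]

/-- The moment curve. -/
def vt (t : ZMod p) : Fin D → ZMod p := fun d => t ^ (d : ℕ)

/-- The averaged character over all jumps. -/
noncomputable def rho (y : Fin D → ZMod p) : ℂ :=
  (1 / (p : ℂ) ^ 2) * ∑ s : ZMod p, ∑ t : ZMod p, psi p ((s • vt t) ⬝ᵥ y)

theorem p_ne : (p : ℂ) ≠ 0 := by
  exact_mod_cast hp.out.ne_zero

theorem rho_zero : rho (0 : Fin D → ZMod p) = 1 := by
  unfold rho
  simp only [dotProduct_zero, AddChar.map_zero_eq_one]
  have := p_ne (p := p)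
  simp only [sum_const, card_univ, ZMod.card, nsmul_eq_mul, mul_one]
  field_simp

theorem rho_norm_le_one (y : Fin D → ZMod p) : ‖rho y‖ ≤ 1 := by
  unfold rho
  rw [norm_mul, norm_div, norm_one, norm_pow, Complex.norm_natCast]
  have h1 : ‖∑ s : ZMod p, ∑ t : ZMod p, psi p ((s • vt t) ⬝ᵥ y)‖ ≤ (p : ℝ) ^ 2 := by
    refine (norm_sum_le _ _).trans ?_
    refine (sum_le_sum (fun s _ => norm_sum_le _ _)).trans ?_
    simp only [psi_norm, sum_const, card_univ, ZMod.card, nsmul_eq_mul, mul_one]
    rw [sq]
  have h2 : (0 : ℝ) < (p : ℝ) ^ 2 := by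
    have := hp.out.pos
    positivity
  rw [one_div, inv_mul_le_iff₀ h2]
  linarith

theorem rho_small (y : Fin D → ZMod p) (hy : y ≠ 0) : ‖rho y‖ ≤ (D : ℝ) / p := by
  classical
  have hpp : (0 : ℝ) < p := by exact_mod_cast hp.out.pos
  have h0 : ∀ c : ZMod p, ∑ s : ZMod p, psi p (s * c) = if c = 0 then (p : ℂ) else 0 := by
    intro c
    have := AddChar.sum_mulShift c (ZMod.isPrimitive_stdAddChar p)
    rw [psi]
    convert this using 1
    rw [ZMod.card]; push_cast; rfl
  have h1 : rho y = (1 / (p : ℂ)) * ((univ.filter fun t : ZMod p => vt t ⬝ᵥ y = 0).card : ℂ) := by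
    unfold rho
    rw [sum_comm]
    simp only [smul_dotProduct, smul_eq_mul, h0]
    rw [← sum_filter, sum_const, nsmul_eq_mul]
    have := p_ne (p := p)
    field_simp
  rw [h1, norm_mul, norm_div, norm_one, Complex.norm_natCast, Complex.norm_natCast, one_div,
    div_eq_inv_mul]
  apply mul_le_mul_of_nonneg_left _ (by positivity)
  -- the polynomial
  set P : Polynomial (ZMod p) := ∑ d : Fin D, Polynomial.C (y d) * Polynomial.X ^ (d : ℕ) with hP
  have hcoeff : ∀ d : Fin D, P.coeff (d : ℕ) = y d := by
    intro d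
    rw [hP, Polynomial.finset_sum_coeff]
    rw [sum_eq_single d]
    · rw [Polynomial.coeff_C_mul, Polynomial.coeff_X_pow, if_pos rfl, mul_one]
    · intro e _ he
      rw [Polynomial.coeff_C_mul, Polynomial.coeff_X_pow, if_neg, mul_zero]
      intro h
      exact he (Fin.ext h.symm)
    · intro h
      exact absurd (mem_univ _) h
  have hP0 : P ≠ 0 := by
    intro h
    apply hy
    funext d
    rw [← hcoeff d, h, Polynomial.coeff_zero]
    rfl
  have hdeg : P.natDegree ≤ D := by
    rw [hP]
    apply Polynomial.natDegree_sum_le_of_forall_le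
    intro d _
    exact (Polynomial.natDegree_C_mul_X_pow_le _ _).trans d.2.le
  have hev : ∀ t, P.eval t = vt t ⬝ᵥ y := by
    intro t
    rw [hP, Polynomial.eval_finset_sum]
    simp only [dotProduct, vt, Polynomial.eval_mul, Polynomial.eval_C, Polynomial.eval_pow,
      Polynomial.eval_X]
    exact sum_congr rfl fun d _ => mul_comm _ _
  have hsub : (univ.filter fun t : ZMod p => vt t ⬝ᵥ y = 0) ⊆ P.roots.toFinset := by
    intro t ht
    rw [mem_filter] at ht
    rw [Multiset.mem_toFinset, Polynomial.mem_roots hP0, Polynomial.IsRoot, hev]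
    exact ht.2
  have hcard : (univ.filter fun t : ZMod p => vt t ⬝ᵥ y = 0).card ≤ D :=
    ((card_le_card hsub).trans (Multiset.toFinset_card_le _)).trans
      ((Polynomial.card_roots' P).trans hdeg)
  exact_mod_cast hcard

/-- States that can be reached from `x` with at most `b` jumps. -/
noncomputable def reach (x : Fin D → ZMod p) : ℕ → Finset (Fin D → ZMod p)
  | 0 => {x}
  | b + 1 => by
      classical
      exact image₂ (fun z (q : ZMod p × ZMod p) => z + q.1 • vt q.2) (reach x b) univ

theorem reach_card (x : Fin D → ZMod p) (b : ℕ) : (reach x b).card ≤ (p ^ 2) ^ b := by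
  classical
  induction b with
  | zero => simp [reach]
  | succ b ih =>
    rw [reach]
    refine (card_image₂_le _ _ _).trans ?_
    rw [card_univ, Fintype.card_prod, ZMod.card, pow_succ, ← sq]
    exact Nat.mul_le_mul_right _ ih

theorem reach_jump {x z : Fin D → ZMod p} {b : ℕ} (hz : z ∈ reach x b) (s t : ZMod p) :
    z + s • vt t ∈ reach x (b + 1) := by
  classical
  rw [reach]
  exact mem_image₂.2 ⟨z, hz, (s, t), mem_univ _, rfl⟩

theorem reach_succ {x z : Fin D → ZMod p} {b : ℕ} (hz : z ∈ reach x b) : z ∈ reach x (b + 1) := by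
  have := reach_jump hz 0 0
  rwa [zero_smul, add_zero] at this

theorem reach_mono {x z : Fin D → ZMod p} {b b' : ℕ} (h : b ≤ b') (hz : z ∈ reach x b) :
    z ∈ reach x b' := by
  induction b', h using Nat.le_induction with
  | base => exact hz
  | succ n _ ih => exact reach_succ ih

theorem reach_self (x : Fin D → ZMod p) (b : ℕ) : x ∈ reach x b :=
  reach_mono (Nat.zero_le b) (by simp [reach])

end block

end Pool.Agent.LibCSL
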