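import Mathlib

set_option autoImplicit false
open scoped InnerProductSpace
open Filter Topology

namespace Pool.Agent.LibCSL

variable {H : Type} [NormedAddCommGroup H] [InnerProductSpace ℂ H] [CompleteSpace H]

/-- Orthogonal projection onto a closed subspace. -/
noncomputable def pr (M : ClosedSubmodule ℂ H) : H →L[ℂ] H := M.toSubmodule.starProjection

theorem pr_mem (M : ClosedSubmodule ℂ H) (x : H) : pr M x ∈ M :=
  Submodule.starProjection_apply_mem M.toSubmodule x

theorem pr_eq_self {M : ClosedSubmodule ℂ H} {x : H} : pr M x = x ↔ x ∈ M :=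
  Submodule.starProjection_eq_self_iff

theorem pr_adj (M : ClosedSubmodule ℂ H) : (pr M).adjoint = pr M :=
  (isSelfAdjoint_starProjection M.toSubmodule)

/-- If `B` and its adjoint leave `M` invariant, then `B` commutes with the projection. -/
theorem pr_commute {M : ClosedSubmodule ℂ H} {B : H →L[ℂ] H} (h : ∀ x ∈ M, B x ∈ M)
    (h' : ∀ x ∈ M, B.adjoint x ∈ M) : Commute B (pr M) := by
  have h1 : pr M * B * pr M = B * pr M := by
    ext x
    exact pr_eq_self.2 (h _ (pr_mem M x))
  have h2 : pr M * B.adjoint * pr M = B.adjoint * pr M := by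
    ext x
    exact pr_eq_self.2 (h' _ (pr_mem M x))
  have h3 : pr M * B * pr M = pr M * B := by
    have := congrArg ContinuousLinearMap.adjoint h2
    simp only [← ContinuousLinearMap.star_eq_adjoint, star_mul, star_star] at this
    have h4 : star (pr M) = pr M := pr_adj M
    rw [h4] at this
    rw [mul_assoc]
    exact this
  change B * pr M = pr M * B
  rw [← h1, h3]

/-- Operators leaving every member of `G` invariant. -/
def algG (G : Set (ClosedSubmodule ℂ H)) : Set (H →L[ℂ] H) :=
  {A | ∀ M ∈ G, ∀ x ∈ M, A x ∈ M}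

/-- Closed subspaces invariant under `algG G`. -/
def latAlg (G : Set (ClosedSubmodule ℂ H)) : Set (ClosedSubmodule ℂ H) :=
  {M | ∀ A ∈ algG G, ∀ x ∈ M, A x ∈ M}

theorem subset_latAlg (G : Set (ClosedSubmodule ℂ H)) : G ⊆ latAlg G :=
  fun M hM _ hA x hx => hA M hM x hx

theorem algG_latAlg (G : Set (ClosedSubmodule ℂ H)) : algG (latAlg G) = algG G := by
  ext A
  constructor
  · intro hA M hM x hx
    exact hA M (subset_latAlg G hM) x hx
  · intro hA M hM x hx
    exact hM A hA x hx

theorem sInf_mem_latAlg (G : Set (ClosedSubmodule ℂ H)) (S : Set (ClosedSubmodule ℂ H))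
    (hS : S ⊆ latAlg G) : sInf S ∈ latAlg G := by
  intro A hA x hx
  rw [ClosedSubmodule.mem_sInf] at hx ⊢
  intro M hM
  exact hS hM A hA x (hx M hM)

theorem sSup_mem_latAlg (G : Set (ClosedSubmodule ℂ H)) (S : Set (ClosedSubmodule ℂ H))
    (hS : S ⊆ latAlg G) : sSup S ∈ latAlg G := by
  intro A hA x hx
  have h1 : sSup S ≤ (sSup S).comap A := by
    apply sSup_le
    intro M hM y hy
    rw [ClosedSubmodule.mem_comap]
    exact (le_sSup hM : M ≤ sSup S) (hS hM A hA y hy)
  exact h1 hx

theorem bot_mem_latAlg (G : Set (ClosedSubmodule ℂ H)) : ⊥ ∈ latAlg G := by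
  intro A _ x hx
  rw [ClosedSubmodule.mem_bot] at hx ⊢
  rw [hx, map_zero]

theorem top_mem_latAlg (G : Set (ClosedSubmodule ℂ H)) : ⊤ ∈ latAlg G := by
  intro A _ x _
  exact ClosedSubmodule.mem_top

theorem commute_latAlg (G : Set (ClosedSubmodule ℂ H))
    (hG : ∀ M ∈ G, ∀ N ∈ G, Commute (pr M) (pr N)) :
    ∀ M ∈ latAlg G, ∀ N ∈ latAlg G, Commute (pr M) (pr N) := by
  -- operators commuting with all projections from `G` are in the algebra, together with adjoints
  have key : ∀ B : H →L[ℂ] H, (∀ M ∈ G, Commute B (pr M)) → ∀ N ∈ latAlg G,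
      Commute B (pr N) := by
    intro B hB N hN
    have hBmem : B ∈ algG G := by
      intro M hM x hx
      rw [← pr_eq_self] at hx ⊢
      have := congrArg (fun T : H →L[ℂ] H => T x) (hB M hM).eq
      change B (pr M x) = pr M (B x) at this
      rw [← this, hx]
    have hBmem' : B.adjoint ∈ algG G := by
      intro M hM x hx
      rw [← pr_eq_self] at hx ⊢
      have h1 := congrArg star (hB M hM).eq
      rw [star_mul, star_mul] at h1
      have h4 : star (pr M) = pr M := pr_adj M
      rw [h4] at h1
      have := congrArg (fun T : H →L[ℂ] H => T x) h1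
      change pr M (B.adjoint x) = B.adjoint (pr M x) at this
      rw [this, hx]
    exact pr_commute (hN B hBmem) (hN _ hBmem')
  intro M hM N hN
  apply key _ _ N hN
  intro M' hM'
  exact (key (pr M') (fun M'' hM'' => hG M' hM' M'' hM'') M hM).symm

end Pool.Agent.LibCSL
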