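import Mathlib

set_option autoImplicit false
open scoped InnerProductSpace ENNReal ComplexConjugate
open Filter Topology

namespace Pool.Agent.LibCSL

/-- The Hilbert space `ℓ²(Λ)`. -/
noncomputable abbrev ell2 (Λ : Type) := lp (fun _ : Λ => ℂ) 2

variable {Λ : Type}

theorem sq_summable (f : ell2 Λ) : Summable fun l => ‖f l‖ ^ 2 := by
  have := (lp.memℓp f).summable (by norm_num)
  simpa using this

theorem norm_sq (f : ell2 Λ) : ‖f‖ ^ 2 = ∑' l, ‖f l‖ ^ 2 := by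
  have := lp.norm_rpow_eq_tsum (p := 2) (by norm_num) f
  simpa using this

theorem memlp_of {g : Λ → ℂ} (hg : Summable fun l => ‖g l‖ ^ 2) :
    Memℓp g 2 := by
  apply memℓp_gen
  simpa using hg

theorem wop_summable (κ : Λ → ℂ) (e : Λ ≃ Λ) (hκ : ∀ l, ‖κ l‖ ≤ 1) (f : ell2 Λ) :
    Summable fun l => ‖κ l * f (e l)‖ ^ 2 := by
  have h1 : Summable fun l => ‖f (e l)‖ ^ 2 := (Equiv.summable_iff e).2 (sq_summable f)
  refine Summable.of_nonneg_of_le (fun l => by positivity) (fun l => ?_) h1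
  rw [norm_mul, mul_pow]
  have h2 : ‖κ l‖ ^ 2 ≤ 1 := pow_le_one₀ (norm_nonneg _) (hκ l)
  nlinarith [sq_nonneg ‖f (e l)‖]

/-- Weighted composition, as a linear map. -/
noncomputable def wopL (κ : Λ → ℂ) (e : Λ ≃ Λ) (hκ : ∀ l, ‖κ l‖ ≤ 1) : ell2 Λ →ₗ[ℂ] ell2 Λ where
  toFun := fun f => ⟨fun l => κ l * f (e l), memlp_of (wop_summable κ e hκ f)⟩
  map_add' := fun f g => by
    apply lp.ext
    funext l
    change κ l * (f + g : ell2 Λ) (e l) = κ l * f (e l) + κ l * g (e l)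
    rw [lp.coeFn_add, Pi.add_apply, mul_add]
  map_smul' := fun c f => by
    apply lp.ext
    funext l
    change κ l * (c • f : ell2 Λ) (e l) = c * (κ l * f (e l))
    rw [lp.coeFn_smul, Pi.smul_apply, smul_eq_mul]
    ring

theorem wopL_apply (κ : Λ → ℂ) (e : Λ ≃ Λ) (hκ : ∀ l, ‖κ l‖ ≤ 1) (f : ell2 Λ) (l : Λ) :
    wopL κ e hκ f l = κ l * f (e l) := rfl

theorem wopL_bound (κ : Λ → ℂ) (e : Λ ≃ Λ) (hκ : ∀ l, ‖κ l‖ ≤ 1) (f : ell2 Λ) :
    ‖wopL κ e hκ f‖ ≤ 1 * ‖f‖ := by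
  rw [one_mul]
  have h1 : ‖wopL κ e hκ f‖ ^ 2 ≤ ‖f‖ ^ 2 := by
    rw [norm_sq, norm_sq]
    have h3 : ∑' l, ‖f l‖ ^ 2 = ∑' l, ‖f (e l)‖ ^ 2 := (Equiv.tsum_eq e (fun l => ‖f l‖ ^ 2)).symm
    rw [h3]
    have h4 : Summable fun l => ‖f (e l)‖ ^ 2 := (Equiv.summable_iff e).2 (sq_summable f)
    apply (wop_summable κ e hκ f).tsum_le_tsum _ h4
    intro l
    rw [norm_mul, mul_pow]
    have h2 : ‖κ l‖ ^ 2 ≤ 1 := pow_le_one₀ (norm_nonneg _) (hκ l)
    nlinarith [sq_nonneg ‖f (e l)‖]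
  exact le_of_sq_le_sq h1 (norm_nonneg _)

/-- Weighted composition operators. -/
noncomputable def wop (κ : Λ → ℂ) (e : Λ ≃ Λ) (hκ : ∀ l, ‖κ l‖ ≤ 1) : ell2 Λ →L[ℂ] ell2 Λ :=
  (wopL κ e hκ).mkContinuous 1 (wopL_bound κ e hκ)

@[simp] theorem wop_apply (κ : Λ → ℂ) (e : Λ ≃ Λ) (hκ : ∀ l, ‖κ l‖ ≤ 1) (f : ell2 Λ) (l : Λ) :
    wop κ e hκ f l = κ l * f (e l) := rfl

theorem wop_norm_le (κ : Λ → ℂ) (e : Λ ≃ Λ) (hκ : ∀ l, ‖κ l‖ ≤ 1) : ‖wop κ e hκ‖ ≤ 1 :=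
  LinearMap.mkContinuous_norm_le _ zero_le_one _

/-- Diagonal operators. -/
noncomputable def dg (κ : Λ → ℂ) (hκ : ∀ l, ‖κ l‖ ≤ 1) : ell2 Λ →L[ℂ] ell2 Λ :=
  wop κ (Equiv.refl Λ) hκ

@[simp] theorem dg_apply (κ : Λ → ℂ) (hκ : ∀ l, ‖κ l‖ ≤ 1) (f : ell2 Λ) (l : Λ) :
    dg κ hκ f l = κ l * f l := rfl

theorem dg_norm_le (κ : Λ → ℂ) (hκ : ∀ l, ‖κ l‖ ≤ 1) : ‖dg κ hκ‖ ≤ 1 := wop_norm_le _ _ _

/-- A diagonal operator with finitely supported symbol is compact. -/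
theorem dg_compact_finite (κ : Λ → ℂ) (hκ : ∀ l, ‖κ l‖ ≤ 1) (F : Finset Λ)
    (hF : ∀ l, l ∉ F → κ l = 0) : IsCompactOperator (dg κ hκ) := by
  classical
  have h1 : dg κ hκ = ∑ l ∈ F, (κ l) • ((lp.singleContinuousLinearMap ℂ (fun _ : Λ => ℂ) 2 l) ∘L
      (lp.evalCLM ℂ (fun _ : Λ => ℂ) 2 l)) := by
    refine ContinuousLinearMap.ext fun f => ?_
    apply lp.ext
    funext m
    rw [dg_apply, sum_apply, lp.coeFn_sum, Finset.sum_apply]
    have h3 : ∀ l, ((κ l) • ((lp.singleContinuousLinearMap ℂ (fun _ : Λ => ℂ) 2 l) ∘L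
      (lp.evalCLM ℂ (fun _ : Λ => ℂ) 2 l))) f m = κ l * (lp.single 2 l (f l) : ell2 Λ) m := by
      intro l
      rfl
    simp_rw [h3]
    by_cases hm : m ∈ F
    · rw [Finset.sum_eq_single m]
      · rw [lp.single_apply_self]
      · intro l _ hl
        rw [lp.single_apply_ne _ _ _ hl.symm, mul_zero]
      · exact fun h => absurd hm h
    · rw [hF m hm, zero_mul, Finset.sum_eq_zero]
      intro l hl
      have hlm : m ≠ l := fun h => hm (h ▸ hl)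
      rw [lp.single_apply_ne _ _ _ hlm, mul_zero]
  have h2 : dg κ hκ ∈ compactOperator (RingHom.id ℂ) (ell2 Λ) (ell2 Λ) := by
    rw [h1]
    refine Submodule.sum_mem _ fun l _ => Submodule.smul_mem _ _ ?_
    have h4 : IsCompactOperator (lp.evalCLM ℂ (fun _ : Λ => ℂ) 2 l) :=
      isCompactOperator_of_locallyCompactSpace_dom (lp.evalCLM ℂ (fun _ : Λ => ℂ) 2 l)
    exact h4.clm_comp (lp.singleContinuousLinearMap ℂ (fun _ : Λ => ℂ) 2 l)
  exact h2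

/-- A diagonal operator whose symbol tends to zero is compact. -/
theorem dg_compact (κ : Λ → ℂ) (hκ : ∀ l, ‖κ l‖ ≤ 1)
    (hdecay : ∀ ε : ℝ, 0 < ε → {l | ε ≤ ‖κ l‖}.Finite) : IsCompactOperator (dg κ hκ) := by
  classical
  have hfin : ∀ n : ℕ, {l | (1 / ((n : ℝ) + 1)) ≤ ‖κ l‖}.Finite := fun n => hdecay _ (by positivity)
  set κn : ℕ → Λ → ℂ := fun n l => if l ∈ (hfin n).toFinset then κ l else 0 with hκn
  have hκn1 : ∀ n l, ‖κn n l‖ ≤ 1 := by
    intro n l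
    simp only [hκn]
    split_ifs
    · exact hκ l
    · simp
  have hlim : Tendsto (fun n => dg (κn n) (hκn1 n)) atTop (𝓝 (dg κ hκ)) := by
    rw [tendsto_iff_norm_sub_tendsto_zero]
    have hbd : ∀ n : ℕ, ‖dg (κn n) (hκn1 n) - dg κ hκ‖ ≤ 1 / ((n : ℝ) + 1) := by
      intro n
      refine ContinuousLinearMap.opNorm_le_bound _ (by positivity) fun f => ?_
      have h1 : ‖(dg (κn n) (hκn1 n) - dg κ hκ) f‖ ^ 2 ≤ (1 / ((n : ℝ) + 1) * ‖f‖) ^ 2 := by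
        rw [norm_sq, mul_pow, norm_sq, ← tsum_mul_left]
        apply (sq_summable _).tsum_le_tsum _ ((sq_summable f).mul_left _)
        intro l
        have h2 : (dg (κn n) (hκn1 n) - dg κ hκ) f l = (κn n l - κ l) * f l := by
          change dg (κn n) (hκn1 n) f l - dg κ hκ f l = _
          rw [dg_apply, dg_apply]; ring
        rw [h2, norm_mul, mul_pow]
        have h3 : ‖κn n l - κ l‖ ≤ 1 / ((n : ℝ) + 1) := by
          simp only [hκn]
          split_ifs with h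
          · simp; positivity
          · rw [Set.Finite.mem_toFinset] at h
            simp only [Set.mem_ofPred_eq, not_le] at h
            rw [zero_sub, norm_neg]
            exact h.le
        have h4 : ‖κn n l - κ l‖ ^ 2 ≤ (1 / ((n : ℝ) + 1)) ^ 2 :=
          pow_le_pow_left₀ (norm_nonneg _) h3 2
        nlinarith [sq_nonneg ‖f l‖]
      exact le_of_sq_le_sq h1 (by positivity)
    exact squeeze_zero (fun n => norm_nonneg _) hbd tendsto_one_div_add_atTop_nhds_zero_nat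
  refine isCompactOperator_of_tendsto hlim (Eventually.of_forall fun n => ?_)
  apply dg_compact_finite _ _ (hfin n).toFinset
  intro l hl
  simp only [hκn, if_neg hl]

end Pool.Agent.LibCSL
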