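import Mathlib
import Pool.Agent.LibCSL.WOp
import Pool.Agent.LibCSL.LatAlg

set_option autoImplicit false
open scoped InnerProductSpace ENNReal ComplexConjugate
open Filter Topology

namespace Pool.Agent.LibCSL

variable {Λ : Type} [AddCommGroup Λ]

/-- Translation by `μ`. -/
noncomputable def tau (μ : Λ) : ell2 Λ →L[ℂ] ell2 Λ :=
  wop (fun _ => 1) (Equiv.addRight μ) (fun _ => by simp)

@[simp] theorem tau_apply (μ : Λ) (f : ell2 Λ) (l : Λ) : tau μ f l = f (l + μ) := by
  change (1 : ℂ) * f (l + μ) = f (l + μ)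
  rw [one_mul]

theorem tau_tau (μ ν : Λ) (f : ell2 Λ) : tau μ (tau ν f) = tau (μ + ν) f := by
  apply lp.ext
  funext l
  rw [tau_apply, tau_apply, tau_apply, add_assoc]

theorem tau_zero (f : ell2 Λ) : tau 0 f = f := by
  apply lp.ext
  funext l
  rw [tau_apply, add_zero]

theorem tau_norm_le (μ : Λ) (f : ell2 Λ) : ‖tau μ f‖ ≤ ‖f‖ := by
  have := (tau μ).le_of_opNorm_le (wop_norm_le _ _ _) f
  rwa [one_mul] at this

theorem tau_comm (μ ν : Λ) : Commute (tau μ) (tau ν) := by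
  refine ContinuousLinearMap.ext fun f => ?_
  change tau μ (tau ν f) = tau ν (tau μ f)
  rw [tau_tau, tau_tau, add_comm]

theorem tau_adjoint (μ : Λ) : (tau μ).adjoint = tau (-μ) := by
  symm
  rw [ContinuousLinearMap.eq_adjoint_iff]
  intro x y
  rw [lp.inner_eq_tsum, lp.inner_eq_tsum]
  rw [← Equiv.tsum_eq (Equiv.addRight μ)]
  apply tsum_congr
  intro l
  rw [tau_apply, tau_apply]
  change ⟪x (l + μ + -μ), y (l + μ)⟫_ℂ = _
  rw [add_neg_cancel_right]

/-- Closed subspaces invariant under every operator commuting with the translations. -/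
def HI (M : ClosedSubmodule ℂ (ell2 Λ)) : Prop :=
  ∀ B : ell2 Λ →L[ℂ] ell2 Λ, (∀ μ, Commute B (tau μ)) → ∀ x ∈ M, B x ∈ M

theorem HI_commute {M N : ClosedSubmodule ℂ (ell2 Λ)} (hM : HI M) (hN : HI N) :
    Commute (pr M) (pr N) := by
  have h1 : ∀ M : ClosedSubmodule ℂ (ell2 Λ), HI M → ∀ μ, Commute (pr M) (tau μ) := by
    intro M hM μ
    apply (pr_commute (fun x hx => hM _ (fun ν => tau_comm μ ν) x hx) (fun x hx => ?_)).symm
    rw [tau_adjoint]
    exact hM _ (fun ν => tau_comm _ ν) x hx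
  apply pr_commute (hN _ (h1 M hM))
  rw [pr_adj]
  exact hN _ (h1 M hM)

/-- A weight function changes the eigenvalue of a translation. -/
theorem tau_dg {κ : Λ → ℂ} (hκ : ∀ l, ‖κ l‖ ≤ 1) {μ : Λ} {c d : ℂ} {f : ell2 Λ}
    (h1 : ∀ l, κ (l + μ) = c * κ l) (h2 : tau μ f = d • f) :
    tau μ (dg κ hκ f) = (c * d) • dg κ hκ f := by
  apply lp.ext
  funext l
  have h3 : f (l + μ) = d * f l := by
    have := congrArg (fun g : ell2 Λ => g l) h2
    simpa using this
  rw [tau_apply, dg_apply, h1, h3]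
  change _ = (c * d) * (κ l * f l)
  ring

end Pool.Agent.LibCSL
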