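import Mathlib
import Pool.Agent.LibCSL.Block
import Pool.Agent.LibCSL.Trans

set_option autoImplicit false
open scoped InnerProductSpace ENNReal ComplexConjugate
open Filter Topology

namespace Pool.Agent.LibCSL

/-- Dimension of the `j`-th block. -/
def DD (j : ℕ) : ℕ := 4 * 2 ^ j + 2

/-- Prime used for the `j`-th block. -/
noncomputable def PP (j : ℕ) : ℕ := (Nat.exists_infinite_primes (2 ^ j * DD j)).choose

instance PP_fact (j : ℕ) : Fact (PP j).Prime :=
  ⟨(Nat.exists_infinite_primes (2 ^ j * DD j)).choose_spec.2⟩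

theorem PP_ge (j : ℕ) : 2 ^ j * DD j ≤ PP j :=
  (Nat.exists_infinite_primes (2 ^ j * DD j)).choose_spec.1

/-- The `j`-th block. -/
abbrev Gam (j : ℕ) : Type := Fin (DD j) → ZMod (PP j)

/-- The index group. -/
abbrev Lam : Type := (ℕ →₀ ZMod 2) × (Π₀ j, Gam j)

/-- The Hilbert space. -/
noncomputable abbrev HH : Type := ell2 Lam

/-- Time direction `i`. -/
noncomputable def tv (i : ℕ) : Lam := (Finsupp.single i 1, 0)

/-- Block direction. -/
noncomputable def bv (j : ℕ) (g : Gam j) : Lam := (0, DFinsupp.single j g)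

theorem tv_add_self (i : ℕ) : tv i + tv i = 0 := by
  have h : (Finsupp.single i (1 : ZMod 2)) + Finsupp.single i 1 = 0 := by
    rw [← Finsupp.single_add]
    have : (1 : ZMod 2) + 1 = 0 := by decide
    rw [this, Finsupp.single_zero]
  unfold tv
  rw [Prod.mk_add_mk, h, add_zero]
  rfl

theorem bv_add (j : ℕ) (g h : Gam j) : bv j g + bv j h = bv j (g + h) := by
  unfold bv
  rw [Prod.mk_add_mk, add_zero, DFinsupp.single_add]

theorem bv_zero (j : ℕ) : bv j 0 = 0 := by
  unfold bv
  rw [DFinsupp.single_zero]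
  rfl

theorem sig_sig (i : ℕ) (f : HH) : tau (tv i) (tau (tv i) f) = f := by
  rw [tau_tau, tv_add_self, tau_zero]

/-- Cell of generation `n` and index `a`: joint eigenvectors of the first `n` time translations. -/
def Cell : ℕ → ℕ → HH → Prop
  | 0, _, _ => True
  | n + 1, a, f => Cell n (a / 2) f ∧ tau (tv n) f = ((-1 : ℂ) ^ a) • f

theorem Cell.of {n : ℕ} : ∀ {a : ℕ} {f g : HH}, Cell n a f →
    (∀ i < n, ∀ c : ℂ, tau (tv i) f = c • f → tau (tv i) g = c • g) → Cell n a g := by
  induction n with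
  | zero => intro a f g _ _; trivial
  | succ n ih =>
    intro a f g h hg
    exact ⟨ih h.1 (fun i hi c => hg i (by omega) c), hg n (by omega) _ h.2⟩

theorem Cell.up {m n : ℕ} : ∀ {b : ℕ} {f : HH}, Cell (m + n) b f → Cell m (b / 2 ^ n) f := by
  induction n with
  | zero => intro b f h; simpa using h
  | succ n ih =>
    intro b f h
    have := ih h.1
    rwa [Nat.div_div_eq_div_mul, ← pow_succ'] at this

/-- Joint eigenvectors of the block translations with character `z`. -/
def Vm (j : ℕ) (z : Gam j) (f : HH) : Prop :=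
  ∀ g : Gam j, tau (bv j g) f = psi (PP j) (z ⬝ᵥ g) • f

theorem tau_swap (μ ν : Lam) (f : HH) : tau μ (tau ν f) = tau ν (tau μ f) := by
  rw [tau_tau, tau_tau, add_comm]

theorem half_plus {m a : ℕ} {f : HH} (h : Cell m a f) :
    Cell (m + 1) (2 * a) ((1 / 2 : ℂ) • (f + tau (tv m) f)) := by
  refine ⟨?_, ?_⟩
  · have h2 : 2 * a / 2 = a := by omega
    rw [h2]
    refine h.of fun i _ c hc => ?_
    rw [map_smul, map_add, tau_swap, hc, map_smul, ← smul_add, smul_comm]
  · rw [map_smul, map_add, sig_sig, pow_mul]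
    norm_num
    rw [add_comm]

theorem half_minus {m a : ℕ} {f : HH} (h : Cell m a f) :
    Cell (m + 1) (2 * a + 1) ((1 / 2 : ℂ) • (f - tau (tv m) f)) := by
  refine ⟨?_, ?_⟩
  · have h2 : (2 * a + 1) / 2 = a := by omega
    rw [h2]
    refine h.of fun i _ c hc => ?_
    rw [map_smul, map_sub, tau_swap, hc, map_smul, ← smul_sub, smul_comm]
  · rw [map_smul, map_sub, sig_sig, pow_succ, pow_mul]
    norm_num
    rw [← smul_neg, neg_sub]

theorem Vm.half {j : ℕ} {z : Gam j} {f : HH} (h : Vm j z f) (m : ℕ) (c d e : ℂ) :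
    Vm j z (c • (d • f + e • tau (tv m) f)) := by
  intro g
  rw [map_smul, map_add, map_smul, map_smul, tau_swap, h g, map_smul, smul_comm d, smul_comm e,
    ← smul_add, smul_comm]

theorem descend (j : ℕ) (z : Gam j) (N : Submodule ℂ HH) (n : ℕ) : ∀ (m a : ℕ),
    (∀ b, b / 2 ^ n = a → ∀ f, Cell (m + n) b f → Vm j z f → f ∈ N) →
    ∀ f, Cell m a f → Vm j z f → f ∈ N := by
  induction n with
  | zero =>
    intro m a h f hf hv
    exact h a (by simp) f hf hv
  | succ n ih =>
    intro m a h f hf hv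
    have hm : m + (n + 1) = m + 1 + n := by omega
    rw [hm] at h
    have h1 : (1 / 2 : ℂ) • (f + tau (tv m) f) ∈ N := by
      apply ih (m + 1) (2 * a) _ _ (half_plus hf)
      · have := hv.half m (1 / 2) 1 1
        rwa [one_smul, one_smul] at this
      · intro b hb
        apply h b
        rw [pow_succ, ← Nat.div_div_eq_div_mul, hb]
        omega
    have h2 : (1 / 2 : ℂ) • (f - tau (tv m) f) ∈ N := by
      apply ih (m + 1) (2 * a + 1) _ _ (half_minus hf)
      · have := hv.half m (1 / 2) 1 (-1)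
        rwa [one_smul, neg_one_smul, ← sub_eq_add_neg] at this
      · intro b hb
        apply h b
        rw [pow_succ, ← Nat.div_div_eq_div_mul, hb]
        omega
    have h3 : f = (1 / 2 : ℂ) • (f + tau (tv m) f) + (1 / 2 : ℂ) • (f - tau (tv m) f) := by
      rw [← smul_add, add_add_sub_cancel, ← two_smul ℂ f, smul_smul]
      norm_num
    rw [h3]
    exact N.add_mem h1 h2

/-- The generators of the lattice. -/
def gens (j : ℕ) (x : Gam j) : Set HH :=
  {f | ∃ b < 2 ^ j, ∃ z ∈ reach x b, Cell j b f ∧ Vm j z f}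

noncomputable def GG (j : ℕ) (x : Gam j) : ClosedSubmodule ℂ HH :=
  (Submodule.span ℂ (gens j x)).closure

theorem gens_le {j : ℕ} {x : Gam j} {N : ClosedSubmodule ℂ HH} :
    GG j x ≤ N ↔ ∀ f ∈ gens j x, f ∈ N := by
  unfold GG
  rw [Submodule.closure_le, Submodule.span_le]
  rfl

theorem subset_GG {j : ℕ} {x : Gam j} {f : HH} (hf : f ∈ gens j x) : f ∈ GG j x :=
  gens_le.1 le_rfl f hf

theorem GG_map {j : ℕ} {x : Gam j} (A : HH →L[ℂ] HH) (hA : ∀ f ∈ gens j x, A f ∈ GG j x) :
    ∀ f ∈ GG j x, A f ∈ GG j x := by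
  have h1 : GG j x ≤ (GG j x).comap A := by
    rw [gens_le]
    intro f hf
    rw [ClosedSubmodule.mem_comap]
    exact hA f hf
  exact fun f hf => h1 hf

theorem GG_HI (j : ℕ) (x : Gam j) : HI (GG j x) := by
  intro B hB
  apply GG_map
  rintro f ⟨b, hb, z, hz, hc, hv⟩
  have hcomm : ∀ μ, tau μ (B f) = B (tau μ f) := by
    intro μ
    have := congrArg (fun T : HH →L[ℂ] HH => T f) (hB μ).eq
    exact this.symm
  apply subset_GG
  refine ⟨b, hb, z, hz, hc.of fun i _ c h => ?_, fun g => ?_⟩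
  · rw [hcomm, h, map_smul]
  · rw [hcomm, hv g, map_smul]

end Pool.Agent.LibCSL
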