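import Mathlib
import Pool.Agent.LibCSL.Space

set_option autoImplicit false
open scoped InnerProductSpace ENNReal ComplexConjugate
open Filter Topology

namespace Pool.Agent.LibCSL

theorem qne (j : ℕ) : ((PP j : ℂ) ^ (DD j)) ≠ 0 :=
  pow_ne_zero _ (p_ne (p := PP j))

/-- Spectral projection of the block translations. -/
noncomputable def Pz (j : ℕ) (z : Gam j) : HH →L[ℂ] HH :=
  ((PP j : ℂ) ^ (DD j))⁻¹ • ∑ g : Gam j, psi (PP j) (-(z ⬝ᵥ g)) • tau (bv j g)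

theorem Pz_apply (j : ℕ) (z : Gam j) (f : HH) :
    Pz j z f = ((PP j : ℂ) ^ (DD j))⁻¹ • ∑ g : Gam j, psi (PP j) (-(z ⬝ᵥ g)) • tau (bv j g) f := by
  unfold Pz
  rw [smul_apply, sum_apply]
  rfl

theorem Pz_Vm (j : ℕ) (z : Gam j) (f : HH) : Vm j z (Pz j z f) := by
  intro g'
  rw [Pz_apply, map_smul, map_sum, smul_comm]
  congr 1
  rw [Finset.smul_sum]
  rw [← Equiv.sum_comp (Equiv.addLeft g')
    (fun g => psi (PP j) (z ⬝ᵥ g') • psi (PP j) (-(z ⬝ᵥ g)) • tau (bv j g) f)]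
  apply Finset.sum_congr rfl
  intro g _
  rw [map_smul, tau_tau, bv_add, smul_smul, ← AddChar.map_add_eq_mul]
  change _ = psi (PP j) (z ⬝ᵥ g' + -(z ⬝ᵥ (g' + g))) • tau (bv j (g' + g)) f
  congr 2
  rw [dotProduct_add]
  ring

theorem sum_Pz (j : ℕ) (f : HH) : ∑ z, Pz j z f = f := by
  classical
  simp_rw [Pz_apply]
  rw [← Finset.smul_sum, Finset.sum_comm]
  have h1 : ∀ g : Gam j, ∑ z : Gam j, psi (PP j) (-(z ⬝ᵥ g)) • tau (bv j g) f =
      (if g = 0 then (PP j : ℂ) ^ (DD j) else 0) • tau (bv j g) f := by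
    intro g
    rw [← Finset.sum_smul]
    congr 1
    have h2 : ∀ z : Gam j, psi (PP j) (-(z ⬝ᵥ g)) = psi (PP j) ((-g) ⬝ᵥ z) := by
      intro z
      rw [neg_dotProduct, dotProduct_comm]
    simp_rw [h2]
    rw [psi_sum]
    simp only [neg_eq_zero]
  simp_rw [h1]
  rw [Finset.sum_eq_single 0]
  · rw [if_pos rfl, smul_smul, inv_mul_cancel₀ (qne j), one_smul, bv_zero, tau_zero]
  · intro g _ hg
    rw [if_neg hg, zero_smul]
  · intro h
    exact absurd (Finset.mem_univ _) h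

theorem Pz_of_Vm {j : ℕ} {z : Gam j} {f : HH} (h : Vm j z f) (z' : Gam j) :
    Pz j z' f = if z = z' then f else 0 := by
  classical
  rw [Pz_apply]
  have h1 : ∀ g : Gam j, psi (PP j) (-(z' ⬝ᵥ g)) • tau (bv j g) f =
      psi (PP j) ((z - z') ⬝ᵥ g) • f := by
    intro g
    rw [h g, smul_smul, ← AddChar.map_add_eq_mul, sub_dotProduct]
    congr 2
    ring
  simp_rw [h1]
  rw [← Finset.sum_smul, psi_sum]
  by_cases hz : z = z'
  · rw [if_pos hz, if_pos (sub_eq_zero.2 hz), smul_smul, inv_mul_cancel₀ (qne j), one_smul]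
  · rw [if_neg hz, if_neg (fun h => hz (sub_eq_zero.1 h)), zero_smul, smul_zero]

theorem Pz_bound (j : ℕ) (z : Gam j) (f : HH) : ‖Pz j z f‖ ≤ ‖f‖ := by
  rw [Pz_apply, norm_smul, norm_inv, norm_pow, Complex.norm_natCast]
  have hpos : (0 : ℝ) < (PP j : ℝ) ^ DD j := by
    have := (PP_fact j).out.pos
    positivity
  rw [inv_mul_le_iff₀ hpos]
  refine (norm_sum_le _ _).trans ?_
  have h1 : ∀ g : Gam j, ‖psi (PP j) (-(z ⬝ᵥ g)) • tau (bv j g) f‖ ≤ ‖f‖ := by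
    intro g
    rw [norm_smul, psi_norm, one_mul]
    exact tau_norm_le _ _
  refine (Finset.sum_le_sum (fun g _ => h1 g)).trans ?_
  rw [Finset.sum_const, nsmul_eq_mul, Finset.card_univ]
  simp [Fintype.card_pi, ZMod.card]

theorem Vm_bound {j : ℕ} {z : Gam j} {f : HH} (h : Vm j z f) (l : Lam) :
    (PP j : ℝ) ^ DD j * ‖f l‖ ^ 2 ≤ ‖f‖ ^ 2 := by
  classical
  have h1 : ∀ g : Gam j, ‖f (l + bv j g)‖ ^ 2 = ‖f l‖ ^ 2 := by
    intro g
    have := congrArg (fun F : HH => F l) (h g)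
    have h2 : f (l + bv j g) = psi (PP j) (z ⬝ᵥ g) * f l := by simpa using this
    rw [h2, norm_mul, psi_norm, one_mul]
  have hinj : Function.Injective fun g : Gam j => l + bv j g := by
    intro g g' hg
    have h3 : bv j g = bv j g' := add_left_cancel hg
    have h4 : DFinsupp.single j g = DFinsupp.single j g' := congrArg Prod.snd h3
    exact DFinsupp.single_injective h4
  have h2 : ∑ g : Gam j, ‖f (l + bv j g)‖ ^ 2 = (PP j : ℝ) ^ DD j * ‖f l‖ ^ 2 := by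
    simp_rw [h1]
    rw [Finset.sum_const, nsmul_eq_mul, Finset.card_univ]
    simp [Fintype.card_pi, ZMod.card]
  rw [← h2, norm_sq]
  have h5 : ∑ g : Gam j, ‖f (l + bv j g)‖ ^ 2 =
      ∑ m ∈ Finset.univ.map ⟨_, hinj⟩, ‖f m‖ ^ 2 := by
    rw [Finset.sum_map]
    rfl
  rw [h5]
  exact (sq_summable f).sum_le_tsum _ (fun _ _ => by positivity)

theorem GG_proj {j : ℕ} {x : Gam j} {f : HH} (hf : f ∈ GG j x) :
    ∑ z ∈ reach x (2 ^ j), Pz j z f = f := by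
  set A : HH →L[ℂ] HH := (∑ z ∈ reach x (2 ^ j), Pz j z) - ContinuousLinearMap.id ℂ HH with hA
  have hA' : ∀ g, A g = ∑ z ∈ reach x (2 ^ j), Pz j z g - g := by
    intro g
    rw [hA, sub_apply, sum_apply]
    rfl
  have h1 : GG j x ≤ (⊥ : ClosedSubmodule ℂ HH).comap A := by
    rw [gens_le]
    rintro g ⟨b, hb, z, hz, _, hv⟩
    rw [ClosedSubmodule.mem_comap, ClosedSubmodule.mem_bot, hA', sub_eq_zero]
    rw [Finset.sum_eq_single z]
    · rw [Pz_of_Vm hv, if_pos rfl]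
    · intro z' _ hz'
      rw [Pz_of_Vm hv, if_neg hz'.symm]
    · intro h
      exact absurd (reach_mono hb.le hz) h
  have h2 := h1 hf
  rw [ClosedSubmodule.mem_comap, ClosedSubmodule.mem_bot, hA', sub_eq_zero] at h2
  exact h2

theorem GG_bound {j : ℕ} {x : Gam j} {f : HH} (hf : f ∈ GG j x) (l : Lam) :
    (PP j : ℝ) * ‖f l‖ ≤ ‖f‖ := by
  have hpos : (0 : ℝ) < (PP j : ℝ) := by exact_mod_cast (PP_fact j).out.pos
  have h1 : ‖f l‖ ≤ ∑ z ∈ reach x (2 ^ j), ‖Pz j z f l‖ := by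
    have h2 : f l = ∑ z ∈ reach x (2 ^ j), Pz j z f l := by
      conv_lhs => rw [← GG_proj hf]
      rw [lp.coeFn_sum, Finset.sum_apply]
    rw [h2]
    exact norm_sum_le _ _
  have h3 : ∀ z, ‖Pz j z f l‖ ≤ ‖f‖ / (PP j : ℝ) ^ (2 * 2 ^ j + 1) := by
    intro z
    have h4 := Vm_bound (Pz_Vm j z f) l
    rw [le_div_iff₀ (by positivity)]
    have h5 : (‖Pz j z f l‖ * (PP j : ℝ) ^ (2 * 2 ^ j + 1)) ^ 2 ≤ ‖f‖ ^ 2 := by
      have h6 : ‖Pz j z f‖ ^ 2 ≤ ‖f‖ ^ 2 := pow_le_pow_left₀ (norm_nonneg _) (Pz_bound j z f) 2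
      calc (‖Pz j z f l‖ * (PP j : ℝ) ^ (2 * 2 ^ j + 1)) ^ 2
          = (PP j : ℝ) ^ DD j * ‖Pz j z f l‖ ^ 2 := by
            rw [mul_pow, ← pow_mul, mul_comm]
            congr 2
            unfold DD
            ring
        _ ≤ _ := h4.trans h6
    exact le_of_sq_le_sq h5 (norm_nonneg _)
  have h4 : ‖f l‖ ≤ (PP j : ℝ) ^ (2 * 2 ^ j) * (‖f‖ / (PP j : ℝ) ^ (2 * 2 ^ j + 1)) := by
    refine h1.trans ((Finset.sum_le_sum fun z _ => h3 z).trans ?_)
    rw [Finset.sum_const, nsmul_eq_mul]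
    apply mul_le_mul_of_nonneg_right _ (by positivity)
    have := reach_card x (2 ^ j)
    rw [← pow_mul] at this
    exact_mod_cast this
  have h5 : (PP j : ℝ) ^ (2 * 2 ^ j) * (‖f‖ / (PP j : ℝ) ^ (2 * 2 ^ j + 1)) = ‖f‖ / PP j := by
    rw [pow_succ]
    field_simp
  rw [h5, le_div_iff₀ hpos] at h4
  linarith

theorem PP_lower (j : ℕ) : (j : ℝ) ≤ PP j := by
  have h1 : j ≤ 2 ^ j * DD j := by
    have h2 : j < 2 ^ j := Nat.lt_two_pow_self
    have h3 : 1 ≤ DD j := by unfold DD; omega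
    nlinarith
  exact_mod_cast h1.trans (PP_ge j)

theorem meet_bot (x : ∀ j, Gam j) : (⨅ j, GG j (x j)) = ⊥ := by
  rw [eq_bot_iff]
  intro f hf
  rw [ClosedSubmodule.mem_iInf] at hf
  rw [ClosedSubmodule.mem_bot]
  apply lp.ext
  funext l
  by_contra hne
  have hpos : 0 < ‖f l‖ := norm_pos_iff.2 hne
  obtain ⟨j, hj⟩ := exists_nat_gt (‖f‖ / ‖f l‖)
  have h1 := GG_bound (hf j) l
  rw [div_lt_iff₀ hpos] at hj
  have h2 : (j : ℝ) * ‖f l‖ ≤ (PP j : ℝ) * ‖f l‖ :=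
    mul_le_mul_of_nonneg_right (PP_lower j) hpos.le
  linarith

theorem join_top (j : ℕ) : sSup (Set.range (GG j)) = ⊤ := by
  rw [eq_top_iff]
  intro f _
  rw [← sum_Pz j f]
  have key : ∀ z, Pz j z f ∈ sSup (Set.range (GG j)) := by
    intro z
    have h1 : Pz j z f ∈ (GG j z).toSubmodule := by
      apply descend j z (GG j z).toSubmodule j 0 0 _ _ trivial (Pz_Vm j z f)
      intro b hb g hg hv
      rw [zero_add] at hg
      apply subset_GG
      refine ⟨b, ?_, z, reach_self z b, hg, hv⟩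
      rwa [Nat.div_eq_zero_iff_lt (by positivity)] at hb
    exact (le_sSup ⟨z, rfl⟩ : GG j z ≤ sSup (Set.range (GG j))) h1
  have : ∑ z, Pz j z f ∈ (sSup (Set.range (GG j))).toSubmodule := Submodule.sum_mem _ fun z _ => key z
  exact this

end Pool.Agent.LibCSL
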