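import Mathlib
import Pool.Agent.LibCSL.Spec

set_option autoImplicit false
open scoped InnerProductSpace ENNReal ComplexConjugate
open Filter Topology

namespace Pool.Agent.LibCSL

open Classical in
/-- Time weight. -/
noncomputable def th (J : ℕ) (t : ℕ →₀ ZMod 2) : ℂ :=
  if ∀ i, J < i → t i = 0 then (if t J = 0 then 1 else -1) else 0

open Classical in
/-- Block weight. -/
noncomputable def piw (J : ℕ) (y : Π₀ j, Gam j) : ℂ :=
  ∏ j ∈ y.support.filter (fun j => J < j), rho (y j)

theorem th_norm_le (J : ℕ) (t : ℕ →₀ ZMod 2) : ‖th J t‖ ≤ 1 := by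
  unfold th
  split_ifs <;> simp

theorem th_low {J i : ℕ} (hi : i < J) (t : ℕ →₀ ZMod 2) :
    th J (t + Finsupp.single i 1) = th J t := by
  unfold th
  have h1 : ∀ k, J ≤ k → (t + Finsupp.single i 1 : ℕ →₀ ZMod 2) k = t k := by
    intro k hk
    rw [Finsupp.add_apply, Finsupp.single_eq_of_ne (by omega), add_zero]
  have h2 : (∀ k, J < k → (t + Finsupp.single i 1 : ℕ →₀ ZMod 2) k = 0) ↔ ∀ k, J < k → t k = 0 := by
    constructor
    · intro h k hk
      rw [← h1 k hk.le]; exact h k hk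
    · intro h k hk
      rw [h1 k hk.le]; exact h k hk
  by_cases hc : ∀ k, J < k → t k = 0
  · rw [if_pos (h2.2 hc), if_pos hc, h1 J le_rfl]
  · rw [if_neg (fun h => hc (h2.1 h)), if_neg hc]

theorem th_flip (J : ℕ) (t : ℕ →₀ ZMod 2) :
    th J (t + Finsupp.single J 1) = -th J t := by
  unfold th
  have h1 : ∀ k, J < k → (t + Finsupp.single J 1 : ℕ →₀ ZMod 2) k = t k := by
    intro k hk
    rw [Finsupp.add_apply, Finsupp.single_eq_of_ne (by omega), add_zero]
  have h2 : (∀ k, J < k → (t + Finsupp.single J 1 : ℕ →₀ ZMod 2) k = 0) ↔ ∀ k, J < k → t k = 0 := by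
    constructor
    · intro h k hk
      rw [← h1 k hk]; exact h k hk
    · intro h k hk
      rw [h1 k hk]; exact h k hk
  have h3 : (t + Finsupp.single J 1 : ℕ →₀ ZMod 2) J = t J + 1 := by
    rw [Finsupp.add_apply, Finsupp.single_eq_same]
  by_cases hc : ∀ k, J < k → t k = 0
  · rw [if_pos (h2.2 hc), if_pos hc, h3]
    have h4 : ∀ a : ZMod 2, a = 0 ∨ a = 1 := by decide
    rcases h4 (t J) with h | h
    · rw [h]
      simp
    · rw [h]
      have : (1 : ZMod 2) + 1 = 0 := by decide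
      rw [this]
      simp
  · rw [if_neg (fun h => hc (h2.1 h)), if_neg hc, neg_zero]

open Classical in
theorem piw_superset (J : ℕ) (y : Π₀ j, Gam j) (s : Finset ℕ) (h : y.support ⊆ s) :
    piw J y = ∏ j ∈ s.filter (fun j => J < j), rho (y j) := by
  unfold piw
  apply Finset.prod_subset (Finset.filter_subset_filter _ h)
  intro j hj hj'
  rw [Finset.mem_filter] at hj hj'
  have : j ∉ y.support := fun h => hj' ⟨h, hj.2⟩
  rw [DFinsupp.notMem_support_iff] at this
  rw [this]
  exact rho_zero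

theorem piw_low {J j : ℕ} (hj : j ≤ J) (y : Π₀ j, Gam j) (g : Gam j) :
    piw J (y + DFinsupp.single j g) = piw J y := by
  classical
  rw [piw_superset J y (y.support ∪ (y + DFinsupp.single j g).support) Finset.subset_union_left,
    piw_superset J (y + DFinsupp.single j g) (y.support ∪ (y + DFinsupp.single j g).support)
      Finset.subset_union_right]
  apply Finset.prod_congr rfl
  intro k hk
  rw [Finset.mem_filter] at hk
  rw [DFinsupp.add_apply, DFinsupp.single_eq_of_ne (by omega), add_zero]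

theorem piw_erase {J j : ℕ} (hj : J < j) (y : Π₀ j, Gam j) :
    piw J y = rho (y j) * piw J (y.erase j) := by
  classical
  have hsub : (y.erase j).support ⊆ y.support ∪ {j} := by
    rw [DFinsupp.support_erase]
    exact (Finset.erase_subset _ _).trans Finset.subset_union_left
  rw [piw_superset J y (y.support ∪ {j}) Finset.subset_union_left,
    piw_superset J (y.erase j) (y.support ∪ {j}) hsub]
  have hmem : j ∈ (y.support ∪ {j}).filter (fun j => J < j) := by
    rw [Finset.mem_filter]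
    exact ⟨Finset.mem_union_right _ (Finset.mem_singleton_self j), hj⟩
  rw [← Finset.mul_prod_erase _ _ hmem, ← Finset.mul_prod_erase _ _ hmem]
  congr 1
  rw [DFinsupp.erase_same, rho_zero, one_mul]
  apply Finset.prod_congr rfl
  intro k hk
  rw [DFinsupp.erase_ne (Finset.ne_of_mem_erase hk)]

theorem piw_norm_le (J : ℕ) (y : Π₀ j, Gam j) : ‖piw J y‖ ≤ 1 := by
  unfold piw
  rw [norm_prod]
  exact Finset.prod_le_one (fun _ _ => norm_nonneg _) (fun _ _ => rho_norm_le_one _)

/-- The weight of the `J`-th operator. -/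
noncomputable def wt (J : ℕ) (l : Lam) : ℂ := th J l.1 * piw J l.2

theorem wt_norm_le (J : ℕ) (l : Lam) : ‖wt J l‖ ≤ 1 := by
  unfold wt
  rw [norm_mul]
  exact mul_le_one₀ (th_norm_le _ _) (norm_nonneg _) (piw_norm_le _ _)

theorem rho_PP {j : ℕ} (y : Gam j) (hy : y ≠ 0) : ‖rho y‖ ≤ (1 / 2 : ℝ) ^ j := by
  refine (rho_small y hy).trans ?_
  have hpos : (0 : ℝ) < (PP j : ℝ) := by exact_mod_cast (PP_fact j).out.pos
  rw [div_le_iff₀ hpos]
  have h1 : ((2 : ℝ) ^ j * DD j) ≤ PP j := by exact_mod_cast PP_ge j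
  have h2 : (1 / 2 : ℝ) ^ j * ((2 : ℝ) ^ j * DD j) = DD j := by
    rw [← mul_assoc, ← mul_pow]
    norm_num
  rw [← h2]
  exact mul_le_mul_of_nonneg_left h1 (by positivity)

theorem piw_small {J j : ℕ} (hj : J < j) (y : Π₀ j, Gam j) (hy : y j ≠ 0) :
    ‖piw J y‖ ≤ (1 / 2 : ℝ) ^ j := by
  rw [piw_erase hj, norm_mul]
  have h1 := rho_PP (y j) hy
  have h2 := piw_norm_le J (y.erase j)
  have h3 : (0 : ℝ) ≤ (1 / 2 : ℝ) ^ j := by positivity
  calc ‖rho (y j)‖ * ‖piw J (y.erase j)‖ ≤ (1 / 2 : ℝ) ^ j * 1 :=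
        mul_le_mul h1 h2 (norm_nonneg _) h3
    _ = _ := mul_one _

theorem finite_box (M : ℕ) :
    {l : Lam | (∀ i, M ≤ i → l.1 i = 0) ∧ (∀ i, M ≤ i → l.2 i = 0)}.Finite := by
  classical
  refine Set.Finite.of_injOn (f := fun l : Lam =>
    ((fun i : Fin M => l.1 i, fun i : Fin M => l.2 i) : (Fin M → ZMod 2) × (∀ i : Fin M, Gam i)))
    (t := Set.univ) (fun _ _ => Set.mem_univ _) ?_ Set.finite_univ
  rintro ⟨t, y⟩ ⟨h1, h2⟩ ⟨t', y'⟩ ⟨h1', h2'⟩ heq
  simp only [Prod.mk.injEq] at heq h1 h2 h1' h2'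
  rw [Prod.mk.injEq]
  constructor
  · ext i
    by_cases hi : i < M
    · exact congrFun heq.1 ⟨i, hi⟩
    · rw [h1 i (by omega), h1' i (by omega)]
  · apply DFinsupp.ext
    intro i
    by_cases hi : i < M
    · exact congrFun heq.2 ⟨i, hi⟩
    · rw [h2 i (by omega), h2' i (by omega)]

theorem wt_decay (J : ℕ) (ε : ℝ) (hε : 0 < ε) : {l | ε ≤ ‖wt J l‖}.Finite := by
  obtain ⟨N, hN⟩ := exists_pow_lt_of_lt_one hε (by norm_num : (1 / 2 : ℝ) < 1)
  apply (finite_box (max (J + 1) N)).subset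
  intro l hl
  change ε ≤ ‖wt J l‖ at hl
  constructor
  · intro i hi
    by_contra hne
    have h1 : th J l.1 = 0 := by
      unfold th
      rw [if_neg]
      intro h
      exact hne (h i (lt_of_lt_of_le (Nat.lt_succ_self J) ((le_max_left _ _).trans hi)))
    unfold wt at hl
    rw [h1, zero_mul, norm_zero] at hl
    linarith
  · intro i hi
    by_contra hne
    have hJi : J < i := lt_of_lt_of_le (Nat.lt_succ_self J) ((le_max_left _ _).trans hi)
    have h1 := piw_small hJi l.2 hne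
    have h2 : (1 / 2 : ℝ) ^ i ≤ (1 / 2 : ℝ) ^ N :=
      pow_le_pow_of_le_one (by norm_num) (by norm_num) ((le_max_right _ _).trans hi)
    have h3 : ‖wt J l‖ ≤ ‖piw J l.2‖ := by
      unfold wt
      rw [norm_mul]
      exact mul_le_of_le_one_left (norm_nonneg _) (th_norm_le _ _)
    linarith

theorem wt_one (l : Lam) : ∀ᶠ J in atTop, wt J l = 1 := by
  classical
  filter_upwards [eventually_gt_atTop (l.1.support.sup id + l.2.support.sup id)] with J hJ
  have h1 : ∀ i, J ≤ i → l.1 i = 0 := by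
    intro i hi
    by_contra hne
    have h2 : i ≤ l.1.support.sup id :=
      Finset.le_sup (f := id) (Finsupp.mem_support_iff.2 hne)
    omega
  have h3 : ∀ i, J ≤ i → l.2 i = 0 := by
    intro i hi
    by_contra hne
    have h2 : i ≤ l.2.support.sup id :=
      Finset.le_sup (f := id) (DFinsupp.mem_support_iff.2 hne)
    omega
  have h4 : th J l.1 = 1 := by
    unfold th
    rw [if_pos (fun i hi => h1 i hi.le), if_pos (h1 J le_rfl)]
  have h5 : piw J l.2 = 1 := by
    unfold piw
    apply Finset.prod_eq_one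
    intro j hj
    rw [Finset.mem_filter] at hj
    rw [h3 j hj.2.le]
    exact rho_zero
  unfold wt
  rw [h4, h5, one_mul]

end Pool.Agent.LibCSL
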