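import Mathlib
import Pool.Agent.LibCSL.Weights

set_option autoImplicit false
open scoped InnerProductSpace ENNReal ComplexConjugate
open Filter Topology

namespace Pool.Agent.LibCSL

/-- The `J`-th compact operator. -/
noncomputable def KJ (J : ℕ) : HH →L[ℂ] HH :=
  (dg (wt J) (wt_norm_le J)) ∘L (ContinuousLinearMap.id ℂ HH + tau (tv J))

theorem KJ_apply (J : ℕ) (f : HH) :
    KJ J f = dg (wt J) (wt_norm_le J) (f + tau (tv J) f) := rfl

theorem KJ_bound (J : ℕ) (f : HH) : ‖KJ J f‖ ≤ 2 * ‖f‖ := by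
  rw [KJ_apply]
  have h1 := (dg (wt J) (wt_norm_le J)).le_of_opNorm_le (dg_norm_le _ _) (f + tau (tv J) f)
  have h2 := norm_add_le f (tau (tv J) f)
  have h3 := tau_norm_le (tv J) f
  linarith

theorem KJ_compact (J : ℕ) : IsCompactOperator (KJ J) :=
  (dg_compact (wt J) (wt_norm_le J) (wt_decay J)).comp_clm _

theorem wt_time_low {J i : ℕ} (hi : i < J) (l : Lam) : wt J (l + tv i) = 1 * wt J l := by
  rw [one_mul]
  change th J (l.1 + Finsupp.single i 1) * piw J (l.2 + 0) = th J l.1 * piw J l.2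
  rw [th_low hi, add_zero]

theorem wt_block_low {J j : ℕ} (hj : j ≤ J) (g : Gam j) (l : Lam) :
    wt J (l + bv j g) = 1 * wt J l := by
  rw [one_mul]
  change th J (l.1 + 0) * piw J (l.2 + DFinsupp.single j g) = th J l.1 * piw J l.2
  rw [piw_low hj, add_zero]

theorem plus_eig {μ : Lam} {J : ℕ} {c : ℂ} {f : HH} (h : tau μ f = c • f) :
    tau μ (f + tau (tv J) f) = c • (f + tau (tv J) f) := by
  rw [map_add, tau_swap, h, map_smul, smul_add]

theorem KJ_low {J j : ℕ} (hj : j ≤ J) {x : Gam j} {f : HH} (hf : f ∈ gens j x) :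
    KJ J f ∈ gens j x := by
  obtain ⟨b, hb, z, hz, hc, hv⟩ := hf
  refine ⟨b, hb, z, hz, hc.of fun i hi c h => ?_, fun g => ?_⟩
  · rw [KJ_apply, tau_dg (wt_norm_le J) (wt_time_low (lt_of_lt_of_le hi hj)) (plus_eig h), one_mul]
  · rw [KJ_apply, tau_dg (wt_norm_le J) (wt_block_low hj g) (plus_eig (hv g)), one_mul]

/-- Weight with the `j`-th factor replaced by one character. -/
noncomputable def wg (J j : ℕ) (g : Gam j) (l : Lam) : ℂ :=
  th J l.1 * piw J (l.2.erase j) * psi (PP j) (g ⬝ᵥ l.2 j)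

theorem wg_norm_le (J j : ℕ) (g : Gam j) (l : Lam) : ‖wg J j g l‖ ≤ 1 := by
  unfold wg
  rw [norm_mul, norm_mul, psi_norm, mul_one]
  exact mul_le_one₀ (th_norm_le _ _) (norm_nonneg _) (piw_norm_le _ _)

theorem wg_time_low {J j i : ℕ} (g : Gam j) (hi : i < J) (l : Lam) :
    wg J j g (l + tv i) = 1 * wg J j g l := by
  rw [one_mul]
  change th J (l.1 + Finsupp.single i 1) * piw J ((l.2 + 0).erase j) *
    psi (PP j) (g ⬝ᵥ (l.2 + 0 : Π₀ j, Gam j) j) = th J l.1 * piw J (l.2.erase j) *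
      psi (PP j) (g ⬝ᵥ l.2 j)
  rw [th_low hi, add_zero]

theorem wg_flip {J j : ℕ} (g : Gam j) (l : Lam) :
    wg J j g (l + tv J) = (-1) * wg J j g l := by
  change th J (l.1 + Finsupp.single J 1) * piw J ((l.2 + 0).erase j) *
    psi (PP j) (g ⬝ᵥ (l.2 + 0 : Π₀ j, Gam j) j) = (-1) * (th J l.1 * piw J (l.2.erase j) *
      psi (PP j) (g ⬝ᵥ l.2 j))
  rw [th_flip, add_zero]
  ring

theorem erase_add_single {j : ℕ} (y : Π₀ j, Gam j) (g : Gam j) :
    (y + DFinsupp.single j g).erase j = y.erase j := by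
  apply DFinsupp.ext
  intro i
  by_cases hi : i = j
  · subst hi
    rw [DFinsupp.erase_same, DFinsupp.erase_same]
  · rw [DFinsupp.erase_ne hi, DFinsupp.erase_ne hi, DFinsupp.add_apply,
      DFinsupp.single_eq_of_ne hi, add_zero]

theorem wg_block {J j : ℕ} (g g' : Gam j) (l : Lam) :
    wg J j g (l + bv j g') = psi (PP j) (g ⬝ᵥ g') * wg J j g l := by
  change th J (l.1 + 0) * piw J ((l.2 + DFinsupp.single j g').erase j) *
    psi (PP j) (g ⬝ᵥ (l.2 + DFinsupp.single j g' : Π₀ j, Gam j) j) =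
      psi (PP j) (g ⬝ᵥ g') * (th J l.1 * piw J (l.2.erase j) * psi (PP j) (g ⬝ᵥ l.2 j))
  rw [erase_add_single, add_zero, DFinsupp.add_apply, DFinsupp.single_eq_same, dotProduct_add,
    AddChar.map_add_eq_mul]
  ring

theorem dg_split {J j : ℕ} (hj : J < j) (f : HH) :
    dg (wt J) (wt_norm_le J) f = (1 / (PP j : ℂ) ^ 2) • ∑ s : ZMod (PP j), ∑ t : ZMod (PP j),
      dg (wg J j (s • vt t)) (wg_norm_le _ _ _) f := by
  apply lp.ext
  funext l
  rw [lp.coeFn_smul, Pi.smul_apply, lp.coeFn_sum, Finset.sum_apply]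
  simp_rw [lp.coeFn_sum, Finset.sum_apply, dg_apply]
  unfold wg wt
  rw [piw_erase hj]
  unfold rho
  rw [smul_eq_mul]
  simp_rw [← Finset.sum_mul, ← Finset.mul_sum]
  ring

theorem KJ_high {J j : ℕ} (hj : J < j) {x : Gam j} {f : HH} (hf : f ∈ gens j x) :
    KJ J f ∈ GG j x := by
  obtain ⟨b, hb, z, hz, hc, hv⟩ := hf
  obtain ⟨n, rfl⟩ : ∃ n, j = J + 1 + n := ⟨j - (J + 1), by omega⟩
  have hup : Cell (J + 1) (b / 2 ^ n) f := hc.up
  have hpow : (2 : ℕ) ^ (J + 1 + n) = 2 ^ (J + 1) * 2 ^ n := pow_add _ _ _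
  have hbn : b / 2 ^ n < 2 ^ (J + 1) := by
    rw [Nat.div_lt_iff_lt_mul (by positivity), ← hpow]
    exact hb
  rcases Nat.even_or_odd (b / 2 ^ n) with he | ho
  · -- even case
    have hpar : ((-1 : ℂ)) ^ (b / 2 ^ n) = 1 := he.neg_one_pow
    have hsig : tau (tv J) f = f := by
      rw [hup.2, hpar, one_smul]
    have hK : KJ J f = (2 : ℂ) • dg (wt J) (wt_norm_le J) f := by
      rw [KJ_apply, hsig, ← two_smul ℂ f, map_smul]
    rw [hK, dg_split hj]
    have key : ∀ s t : ZMod (PP (J + 1 + n)),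
        dg (wg J (J + 1 + n) (s • vt t)) (wg_norm_le _ _ _) f ∈ (GG (J + 1 + n) x).toSubmodule := by
      intro s t
      apply descend (J + 1 + n) (z + s • vt t) (GG (J + 1 + n) x).toSubmodule n (J + 1)
        (b / 2 ^ n + 1)
      · intro b' hb' g hg hgv
        apply subset_GG
        have hlt : b' / 2 ^ n < 2 ^ (J + 1) := by
          rw [hb']
          obtain ⟨a, ha⟩ := he
          have h2 : (2 : ℕ) ^ (J + 1) = 2 * 2 ^ J := pow_succ' _ _
          rw [h2] at hbn ⊢
          omega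
        have hb'lt : b' < 2 ^ (J + 1 + n) := by
          rw [hpow]
          rwa [Nat.div_lt_iff_lt_mul (by positivity)] at hlt
        have hbb' : b + 1 ≤ b' := by
          by_contra hcon
          have h3 : b' ≤ b := by omega
          have h4 : b' / 2 ^ n ≤ b / 2 ^ n := Nat.div_le_div_right h3
          omega
        exact ⟨b', hb'lt, z + s • vt t, reach_mono hbb' (reach_jump hz s t), hg, hgv⟩
      · refine ⟨?_, ?_⟩
        · have h5 : (b / 2 ^ n + 1) / 2 = b / 2 ^ n / 2 := by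
            obtain ⟨a, ha⟩ := he
            omega
          rw [h5]
          refine hup.1.of fun i hi c h => ?_
          rw [tau_dg (wg_norm_le _ _ _) (wg_time_low _ hi) h, one_mul]
        · rw [tau_dg (wg_norm_le _ _ _) (wg_flip _) hup.2, pow_succ, mul_comm]
      · intro g
        rw [tau_dg (wg_norm_le _ _ _) (wg_block _ g) (hv g), add_dotProduct,
          AddChar.map_add_eq_mul, mul_comm]
    have : (2 : ℂ) • (1 / (PP (J + 1 + n) : ℂ) ^ 2) • ∑ s : ZMod (PP (J + 1 + n)),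
        ∑ t : ZMod (PP (J + 1 + n)), dg (wg J (J + 1 + n) (s • vt t)) (wg_norm_le _ _ _) f ∈
        (GG (J + 1 + n) x).toSubmodule :=
      Submodule.smul_mem _ _ (Submodule.smul_mem _ _
        (Submodule.sum_mem _ fun s _ => Submodule.sum_mem _ fun t _ => key s t))
    exact this
  · have hpar : ((-1 : ℂ)) ^ (b / 2 ^ n) = -1 := ho.neg_one_pow
    have hsig : tau (tv J) f = -f := by
      rw [hup.2, hpar, neg_one_smul]
    have hK : KJ J f = 0 := by
      rw [KJ_apply, hsig, add_neg_cancel, map_zero]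
    rw [hK]
    exact (GG (J + 1 + n) x).toSubmodule.zero_mem

/-- The generating family. -/
def GF : Set (ClosedSubmodule ℂ HH) := {M | ∃ j, ∃ x : Gam j, M = GG j x}

theorem KJ_alg (J : ℕ) : KJ J ∈ algG GF := by
  rintro M ⟨j, x, rfl⟩
  apply GG_map
  intro f hf
  rcases le_or_gt j J with h | h
  · exact subset_GG (KJ_low h hf)
  · exact KJ_high h hf

theorem coord_tendsto (f : HH) (l : Lam) :
    Tendsto (fun J => KJ J f l) atTop (𝓝 (f l)) := by
  have h1 : Tendsto (fun J => ‖f (l + tv J)‖ ^ 2) atTop (𝓝 0) := by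
    have h2 := (sq_summable f).tendsto_cofinite_zero
    have hinj : Function.Injective fun J : ℕ => l + tv J := by
      intro J J' h
      have h3 : tv J = tv J' := add_left_cancel h
      have h4 : Finsupp.single J (1 : ZMod 2) = Finsupp.single J' 1 := congrArg Prod.fst h3
      exact Finsupp.single_left_injective one_ne_zero h4
    have h5 := h2.comp hinj.tendsto_cofinite
    rw [Nat.cofinite_eq_atTop] at h5
    exact h5
  have h2 : Tendsto (fun J => f (l + tv J)) atTop (𝓝 0) := by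
    rw [tendsto_zero_iff_norm_tendsto_zero]
    have h3 := h1.sqrt
    rw [Real.sqrt_zero] at h3
    refine h3.congr fun J => ?_
    rw [Real.sqrt_sq (norm_nonneg _)]
  have h3 : Tendsto (fun J => f l + f (l + tv J)) atTop (𝓝 (f l)) := by
    simpa using h2.const_add (f l)
  refine h3.congr' ?_
  filter_upwards [wt_one l] with J hJ
  rw [KJ_apply, dg_apply, hJ, one_mul, lp.coeFn_add, Pi.add_apply, tau_apply]

theorem KJ_wot (f g : HH) : Tendsto (fun J => ⟪g, KJ J f⟫_ℂ) atTop (𝓝 ⟪g, f⟫_ℂ) := by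
  classical
  have hu : ∀ J, ‖KJ J f - f‖ ≤ 3 * ‖f‖ := by
    intro J
    have h1 := norm_sub_le (KJ J f) f
    have h2 := KJ_bound J f
    linarith
  -- finitely supported vectors
  have hfin : ∀ s : Finset Lam, Tendsto (fun J => ⟪∑ l ∈ s, lp.single (E := fun _ : Lam => ℂ) 2 l (g l), KJ J f - f⟫_ℂ)
      atTop (𝓝 0) := by
    intro s
    have h1 : ∀ J, ⟪∑ l ∈ s, lp.single (E := fun _ : Lam => ℂ) 2 l (g l), KJ J f - f⟫_ℂ =
        ∑ l ∈ s, ⟪g l, KJ J f l - f l⟫_ℂ := by
      intro J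
      rw [sum_inner]
      apply Finset.sum_congr rfl
      intro l _
      rw [lp.inner_single_left]
      rfl
    simp_rw [h1]
    have h2 : (0 : ℂ) = ∑ l ∈ s, 0 := by simp
    rw [h2]
    apply tendsto_finsetSum
    intro l _
    have h3 := (coord_tendsto f l).sub_const (f l)
    rw [sub_self] at h3
    have h4 := (tendsto_const_nhds (x := g l)).inner h3 (𝕜 := ℂ)
    rwa [inner_zero_right] at h4
  have h0 : Tendsto (fun J => ⟪g, KJ J f - f⟫_ℂ) atTop (𝓝 0) := by
    rw [Metric.tendsto_atTop]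
    intro ε hε
    have hC : 0 < 3 * ‖f‖ + 1 := by positivity
    have h1 := lp.hasSum_single (E := fun _ : Lam => ℂ) (p := 2) (by norm_num) g
    rw [HasSum, SummationFilter.unconditional_filter, Metric.tendsto_atTop] at h1
    obtain ⟨s, hs⟩ := h1 (ε / 2 / (3 * ‖f‖ + 1)) (by positivity)
    have h2 := hs s le_rfl
    rw [dist_eq_norm] at h2
    have h3 := hfin s
    rw [Metric.tendsto_atTop] at h3
    obtain ⟨N, hN⟩ := h3 (ε / 2) (by positivity)
    refine ⟨N, fun J hJ => ?_⟩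
    have h4 := hN J hJ
    rw [dist_zero_right] at h4 ⊢
    have h5 : ⟪g, KJ J f - f⟫_ℂ = ⟪g - ∑ l ∈ s, lp.single (E := fun _ : Lam => ℂ) 2 l (g l), KJ J f - f⟫_ℂ +
        ⟪∑ l ∈ s, lp.single (E := fun _ : Lam => ℂ) 2 l (g l), KJ J f - f⟫_ℂ := by
      rw [← inner_add_left, sub_add_cancel]
    have h6 : ‖⟪g - ∑ l ∈ s, lp.single (E := fun _ : Lam => ℂ) 2 l (g l), KJ J f - f⟫_ℂ‖ ≤ ε / 2 := by
      refine (norm_inner_le_norm _ _).trans ?_
      have h7 : ‖g - ∑ l ∈ s, lp.single (E := fun _ : Lam => ℂ) 2 l (g l)‖ ≤ ε / 2 / (3 * ‖f‖ + 1) := by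
        rw [← norm_neg, neg_sub]
        exact h2.le
      calc ‖g - ∑ l ∈ s, lp.single (E := fun _ : Lam => ℂ) 2 l (g l)‖ * ‖KJ J f - f‖
          ≤ (ε / 2 / (3 * ‖f‖ + 1)) * (3 * ‖f‖ + 1) := by
            apply mul_le_mul h7 _ (norm_nonneg _) (by positivity)
            have := hu J
            linarith
        _ = ε / 2 := by field_simp
    rw [h5]
    refine (norm_add_le _ _).trans_lt ?_
    linarith
  have h1 := h0.add_const ⟪g, f⟫_ℂ
  rw [zero_add] at h1
  refine h1.congr fun J => ?_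
  rw [inner_sub_right, sub_add_cancel]

end Pool.Agent.LibCSL
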